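import Pool.Agent.Helper93.FZ.St

set_option autoImplicit false

namespace Pool.Agent.Helper6.FZ

open Finset
open Pool.Agent.Helper93.FZ

/-- a class function whose classes have the size of `Q` has a labelling by `Q`, injective on the
classes -/
private theorem label {U γ Q : Type} [Fintype U] [DecidableEq U] [DecidableEq γ] [Fintype Q]
    [Nonempty Q] (g : U → γ) (h : ∀ z, (univ.filter fun u => g u = z).card = Fintype.card Q) :
    ∃ q : U → Q, ∀ u u', g u = g u' → q u = q u' → u = u' := by
  classical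
  have hz : ∀ z, ∃ φ : U → Q, ∀ u u', g u = z → g u' = z → φ u = φ u' → u = u' := by
    intro z
    have e : (univ.filter fun u => g u = z) ≃ (univ : Finset Q) :=
      Finset.equivOfCardEq (by rw [h z, card_univ])
    refine ⟨fun u => if hu : g u = z then (e ⟨u, by simp [hu]⟩ : Q) else Classical.arbitrary Q, ?_⟩
    intro u u' hu hu' he
    have he2 : (e ⟨u, by simp [hu]⟩ : Q) = (e ⟨u', by simp [hu']⟩ : Q) := by
      have h1 : (if hu : g u = z then (e ⟨u, by simp [hu]⟩ : Q) else Classical.arbitrary Q) =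
        (if hu : g u' = z then (e ⟨u', by simp [hu]⟩ : Q) else Classical.arbitrary Q) := he
      rw [dif_pos hu, dif_pos hu'] at h1
      exact h1
    have h3 := e.injective (Subtype.ext he2)
    exact congrArg Subtype.val h3
  choose φ hφ using hz
  refine ⟨fun u => φ (g u) u, fun u u' hg hq => ?_⟩
  have hq' : φ (g u) u = φ (g u') u' := hq
  rw [← hg] at hq'
  exact hφ (g u) u u' rfl hg.symm hq'

/-- Koenig's theorem for units -/
private theorem resolve (hK : StKNM) {U γ ι Q : Type} [Fintype U] [Fintype ι] [DecidableEq U]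
    [DecidableEq ι] [DecidableEq γ] [Fintype Q] [Nonempty Q] (g : U → γ) (a b : U → ι)
    (ha : ∀ z i, (univ.filter fun u => g u = z ∧ a u = i).card = Fintype.card Q)
    (hb : ∀ z i, (univ.filter fun u => g u = z ∧ b u = i).card = Fintype.card Q) :
    ∃ q : U → Q, (∀ u u', g u = g u' → a u = a u' → q u = q u' → u = u') ∧
      ∀ u u', g u = g u' → b u = b u' → q u = q u' → u = u' := by
  classical
  have hM : ∀ z, ∃ f : Fin (Fintype.card Q) → (ι ≃ ι), ∀ i j,
      (univ.filter fun u => g u = z ∧ a u = i ∧ b u = j).card =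
        (univ.filter fun t => f t i = j).card := by
    intro z
    apply hK ι (Fintype.card Q) (fun i j => (univ.filter fun u => g u = z ∧ a u = i ∧ b u = j).card)
    · intro i
      rw [← ha z i, Finset.card_eq_sum_card_fiberwise (f := b) (t := univ) (by intro x _; simp)]
      refine Finset.sum_congr rfl fun j _ => ?_
      rw [Finset.filter_filter]
      congr 1
      ext u
      simp [and_assoc]
    · intro j
      rw [← hb z j, Finset.card_eq_sum_card_fiberwise (f := a) (t := univ) (by intro x _; simp)]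
      refine Finset.sum_congr rfl fun i _ => ?_
      rw [Finset.filter_filter]
      congr 1
      ext u
      simp only [mem_filter, mem_univ, true_and]
      tauto
  choose f hf using hM
  have hE : ∀ z i j, ∃ φ : U → Fin (Fintype.card Q),
      (∀ u, g u = z → a u = i → b u = j → f z (φ u) i = j) ∧
      ∀ u u', g u = z → a u = i → b u = j → g u' = z → a u' = i → b u' = j →
        φ u = φ u' → u = u' := by
    intro z i j
    have e : (univ.filter fun u => g u = z ∧ a u = i ∧ b u = j) ≃
        (univ.filter fun t => f z t i = j) := Finset.equivOfCardEq (hf z i j)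
    refine ⟨fun u => if hu : g u = z ∧ a u = i ∧ b u = j then
      (e ⟨u, by simpa using hu⟩ : Fin (Fintype.card Q)) else ⟨0, Fintype.card_pos⟩, ?_, ?_⟩
    · intro u h1 h2 h3
      have hu : g u = z ∧ a u = i ∧ b u = j := ⟨h1, h2, h3⟩
      have h4 := (e ⟨u, by simpa using hu⟩).2
      show f z (dite _ _ _) i = j
      rw [dif_pos hu]
      exact (Finset.mem_filter.1 h4).2
    · intro u u' h1 h2 h3 h1' h2' h3' he
      have hu : g u = z ∧ a u = i ∧ b u = j := ⟨h1, h2, h3⟩
      have hu' : g u' = z ∧ a u' = i ∧ b u' = j := ⟨h1', h2', h3'⟩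
      have he1 : (if hu : g u = z ∧ a u = i ∧ b u = j then
          (e ⟨u, by simpa using hu⟩ : Fin (Fintype.card Q)) else ⟨0, Fintype.card_pos⟩) =
        (if hu : g u' = z ∧ a u' = i ∧ b u' = j then
          (e ⟨u', by simpa using hu⟩ : Fin (Fintype.card Q)) else ⟨0, Fintype.card_pos⟩) := he
      rw [dif_pos hu, dif_pos hu'] at he1
      have h5 := e.injective (Subtype.ext he1)
      exact congrArg Subtype.val h5
  choose φ hφ1 hφ2 using hE
  obtain ⟨q0, hq0⟩ : ∃ q0 : U → Fin (Fintype.card Q), ∀ u, q0 u = φ (g u) (a u) (b u) u :=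
    ⟨_, fun _ => rfl⟩
  have h1 : ∀ u u', g u = g u' → a u = a u' → b u = b u' → q0 u = q0 u' → u = u' := by
    intro u u' hg ha' hb' hq
    rw [hq0, hq0, ← hg, ← ha', ← hb'] at hq
    exact hφ2 _ _ _ u u' rfl rfl rfl hg.symm ha'.symm hb'.symm hq
  have h2 : ∀ u, f (g u) (q0 u) (a u) = b u := by
    intro u
    rw [hq0]
    exact hφ1 _ _ _ u rfl rfl rfl
  refine ⟨fun u => (Fintype.equivFin Q).symm (q0 u), ?_, ?_⟩
  · intro u u' hg ha' hq
    have hq' : q0 u = q0 u' := (Fintype.equivFin Q).symm.injective hq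
    refine h1 u u' hg ha' ?_ hq'
    rw [← h2 u, ← h2 u', hg, ha', hq']
  · intro u u' hg hb' hq
    have hq' : q0 u = q0 u' := (Fintype.equivFin Q).symm.injective hq
    refine h1 u u' hg ?_ hb' hq'
    apply (f (g u) (q0 u)).injective
    rw [h2 u, hb', ← h2 u', hg, hq']

private theorem half {U : Type} [Fintype U] [DecidableEq U] (D : ℕ) (P : U → Prop)
    [DecidablePred P] (x y : U → Fin D) (hc : (univ.filter P).card = D * D)
    (hinj : ∀ u u', P u → P u' → x u = x u' → y u = y u' → u = u') (i : Fin D) :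
    (univ.filter fun u => P u ∧ x u = i).card = D := by
  classical
  have himg : (univ.filter P).image (fun u => (x u, y u)) = univ := by
    apply Finset.eq_univ_of_card
    rw [Finset.card_image_of_injOn, hc, Fintype.card_prod, Fintype.card_fin]
    intro u hu u' hu' h
    simp only [coe_filter, mem_univ, true_and, Set.mem_ofPred_eq] at hu hu'
    simp only [Prod.mk.injEq] at h
    exact hinj u u' hu hu' h.1 h.2
  have h2 : (univ.filter fun u => P u ∧ x u = i).image y = (univ : Finset (Fin D)) := by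
    ext j
    simp only [mem_image, mem_filter, mem_univ, true_and, iff_true]
    have h0 : (i, j) ∈ (univ.filter P).image (fun u => (x u, y u)) := by
      rw [himg]
      exact mem_univ _
    obtain ⟨u, hu, hxy⟩ := Finset.mem_image.1 h0
    simp only [Prod.mk.injEq] at hxy
    exact ⟨u, ⟨(by simpa using hu), hxy.1⟩, hxy.2⟩
  have h3 := Finset.card_image_of_injOn (s := univ.filter fun u => P u ∧ x u = i) (f := y) (by
    intro u hu u' hu' h
    simp only [coe_filter, mem_univ, true_and, Set.mem_ofPred_eq] at hu hu'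
    exact hinj u u' hu.1 hu'.1 (hu.2.trans hu'.2.symm) h)
  rw [h2, card_univ, Fintype.card_fin] at h3
  exact h3.symm

private theorem cnt {n : ℕ} (X : Fin n → Fin n → Fin n → ℕ) (P : Fin n × Fin n × Fin n → Prop)
    [DecidablePred P] :
    (univ.filter fun u : (Σ p : Fin n × Fin n × Fin n, Fin (X p.1 p.2.1 p.2.2)) => P u.1).card =
      ∑ r, ∑ c, ∑ s, if P (r, c, s) then X r c s else 0 := by
  classical
  rw [Finset.card_filter, Fintype.sum_sigma, Fintype.sum_prod_type]
  refine Finset.sum_congr rfl fun r _ => ?_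
  rw [Fintype.sum_prod_type]
  refine Finset.sum_congr rfl fun c _ => Finset.sum_congr rfl fun s _ => ?_
  by_cases h : P (r, c, s)
  · simp [h]
  · simp [h]

private theorem cnt_rc {n D : ℕ} (X : Fin n → Fin n → Fin n → ℕ)
    (h : ∀ r c, ∑ s, X r c s = D ^ 2) (r c : Fin n) :
    (univ.filter fun u : (Σ p : Fin n × Fin n × Fin n, Fin (X p.1 p.2.1 p.2.2)) =>
      u.1.1 = r ∧ u.1.2.1 = c).card = D * D := by
  rw [cnt X (fun p => p.1 = r ∧ p.2.1 = c), Finset.sum_eq_single r, Finset.sum_eq_single c]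
  · simp [h, sq]
  · intro b _ hb
    simp [hb]
  · simp
  · intro b _ hb
    simp [hb]
  · simp

private theorem cnt_rs {n D : ℕ} (X : Fin n → Fin n → Fin n → ℕ)
    (h : ∀ r s, ∑ c, X r c s = D ^ 2) (r s : Fin n) :
    (univ.filter fun u : (Σ p : Fin n × Fin n × Fin n, Fin (X p.1 p.2.1 p.2.2)) =>
      u.1.1 = r ∧ u.1.2.2 = s).card = D * D := by
  rw [cnt X (fun p => p.1 = r ∧ p.2.2 = s), Finset.sum_eq_single r]
  · rw [← sq, ← h r s]
    refine Finset.sum_congr rfl fun c _ => ?_
    simp
  · intro b _ hb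
    simp [hb]
  · simp

private theorem cnt_cs {n D : ℕ} (X : Fin n → Fin n → Fin n → ℕ)
    (h : ∀ c s, ∑ r, X r c s = D ^ 2) (c s : Fin n) :
    (univ.filter fun u : (Σ p : Fin n × Fin n × Fin n, Fin (X p.1 p.2.1 p.2.2)) =>
      u.1.2.1 = c ∧ u.1.2.2 = s).card = D * D := by
  rw [cnt X (fun p => p.2.1 = c ∧ p.2.2 = s), ← sq, ← h c s]
  refine Finset.sum_congr rfl fun r _ => ?_
  rw [Finset.sum_eq_single c]
  · simp
  · intro b _ hb
    simp [hb]
  · simp

/-- **SPL**. -/
theorem hSPL : StSPL := by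
  intro hK n D X hD hcell hrow hcol
  classical
  have hne : Nonempty (Fin D) := ⟨⟨0, hD⟩⟩
  set U := (Σ p : Fin n × Fin n × Fin n, Fin (X p.1 p.2.1 p.2.2)) with hU
  -- step 1
  obtain ⟨q1, h11, h12⟩ := resolve hK (Q := Fin D × Fin D) (fun u : U => u.1.1)
    (fun u : U => u.1.2.1) (fun u : U => u.1.2.2)
    (fun r c => by rw [cnt_rc X hcell r c, Fintype.card_prod, Fintype.card_fin])
    (fun r s => by rw [cnt_rs X hrow r s, Fintype.card_prod, Fintype.card_fin])
  have hrci : ∀ r c i, (univ.filter fun u : U => (u.1.1 = r ∧ u.1.2.1 = c) ∧ (q1 u).1 = i).card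
      = D := by
    intro r c i
    refine half D (fun u : U => u.1.1 = r ∧ u.1.2.1 = c) (fun u => (q1 u).1) (fun u => (q1 u).2)
      (cnt_rc X hcell r c) ?_ i
    intro u u' hu hu' hx hy
    exact h11 u u' (hu.1.trans hu'.1.symm) (hu.2.trans hu'.2.symm) (Prod.ext hx hy)
  have hrsi : ∀ r s i, (univ.filter fun u : U => (u.1.1 = r ∧ u.1.2.2 = s) ∧ (q1 u).1 = i).card
      = D := by
    intro r s i
    refine half D (fun u : U => u.1.1 = r ∧ u.1.2.2 = s) (fun u => (q1 u).1) (fun u => (q1 u).2)
      (cnt_rs X hrow r s) ?_ i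
    intro u u' hu hu' hx hy
    exact h12 u u' (hu.1.trans hu'.1.symm) (hu.2.trans hu'.2.symm) (Prod.ext hx hy)
  -- labels of the copies of the symbols
  obtain ⟨ψ, hψ⟩ := label (Q := Fin D × Fin D) (fun u : U => (u.1.2.1, u.1.2.2)) (by
    rintro ⟨c, s⟩
    rw [Fintype.card_prod, Fintype.card_fin, ← cnt_cs X hcol c s]
    congr 1
    ext u
    simp [Prod.ext_iff])
  have hcse : ∀ c s e, (univ.filter fun u : U => (u.1.2.1 = c ∧ u.1.2.2 = s) ∧ (ψ u).1 = e).card
      = D := by
    intro c s e
    refine half D (fun u : U => u.1.2.1 = c ∧ u.1.2.2 = s) (fun u => (ψ u).1) (fun u => (ψ u).2)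
      (cnt_cs X hcol c s) ?_ e
    intro u u' hu hu' hx hy
    refine hψ u u' ?_ (Prod.ext hx hy)
    show (u.1.2.1, u.1.2.2) = (u'.1.2.1, u'.1.2.2)
    rw [hu.1, hu.2, hu'.1, hu'.2]
  -- step 2
  obtain ⟨j, h21, h22⟩ := resolve hK (Q := Fin D) (fun u : U => u.1.2.1)
    (fun u : U => (u.1.1, (q1 u).1)) (fun u : U => (u.1.2.2, (ψ u).1))
    (by
      rintro c ⟨r, i⟩
      rw [Fintype.card_fin]
      refine Eq.trans ?_ (hrci r c i)
      congr 1
      ext u
      simp only [mem_filter, mem_univ, true_and, Prod.mk.injEq]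
      tauto)
    (by
      rintro c ⟨s, e⟩
      rw [Fintype.card_fin]
      refine Eq.trans ?_ (hcse c s e)
      congr 1
      ext u
      simp only [mem_filter, mem_univ, true_and, Prod.mk.injEq]
      tauto)
  have hcsj : ∀ c s i, (univ.filter fun u : U => (u.1.2.1 = c ∧ u.1.2.2 = s) ∧ j u = i).card
      = D := by
    intro c s i
    refine half D (fun u : U => u.1.2.1 = c ∧ u.1.2.2 = s) (fun u => j u) (fun u => (ψ u).1)
      (cnt_cs X hcol c s) ?_ i
    intro u u' hu hu' hx hy
    refine h22 u u' (hu.1.trans hu'.1.symm) ?_ hx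
    exact Prod.ext (hu.2.trans hu'.2.symm) hy
  -- step 3
  obtain ⟨l, h31, h32⟩ := resolve hK (Q := Fin D) (fun u : U => u.1.2.2)
    (fun u : U => (u.1.1, (q1 u).1)) (fun u : U => (u.1.2.1, j u))
    (by
      rintro s ⟨r, i⟩
      rw [Fintype.card_fin]
      refine Eq.trans ?_ (hrsi r s i)
      congr 1
      ext u
      simp only [mem_filter, mem_univ, true_and, Prod.mk.injEq]
      tauto)
    (by
      rintro s ⟨c, i⟩
      rw [Fintype.card_fin]
      refine Eq.trans ?_ (hcsj c s i)
      congr 1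
      ext u
      simp only [mem_filter, mem_univ, true_and, Prod.mk.injEq]
      tauto)
  -- every cell contains one unit
  have hinj : Function.Injective (fun u : U => ((u.1.1, (q1 u).1), (u.1.2.1, j u))) := by
    intro u u' h
    simp only [Prod.mk.injEq] at h
    obtain ⟨⟨e1, e2⟩, e3, e4⟩ := h
    exact h21 u u' e3 (Prod.ext e1 e2) e4
  have hcard : Fintype.card U = Fintype.card ((Fin n × Fin D) × (Fin n × Fin D)) := by
    have h1 := cnt X (fun _ => True)
    simp only [if_true, hcell, Finset.filter_true, Finset.sum_const, smul_eq_mul, card_univ,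
      Fintype.card_fin] at h1
    rw [h1]
    simp only [Fintype.card_prod, Fintype.card_fin]
    ring
  have hbij : Function.Bijective (fun u : U => ((u.1.1, (q1 u).1), (u.1.2.1, j u))) :=
    (Fintype.bijective_iff_injective_and_card _).2 ⟨hinj, hcard⟩
  have hex : ∀ a b, ∃ u : U, ((u.1.1, (q1 u).1), (u.1.2.1, j u)) = (a, b) :=
    fun a b => hbij.2 (a, b)
  choose w hw using hex
  have hwa : ∀ a b, ((w a b).1.1, (q1 (w a b)).1) = a := fun a b => congrArg Prod.fst (hw a b)
  have hwb : ∀ a b, ((w a b).1.2.1, j (w a b)) = b := fun a b => congrArg Prod.snd (hw a b)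
  refine ⟨fun a b => ((w a b).1.2.2, l (w a b)), ?_, ?_, ?_⟩
  · intro a
    apply Finite.injective_iff_bijective.1
    intro b b' h
    simp only [Prod.mk.injEq] at h
    have hu : w a b = w a b' := h31 _ _ h.1 ((hwa a b).trans (hwa a b').symm) h.2
    rw [← hwb a b, hu, hwb a b']
  · intro b
    apply Finite.injective_iff_bijective.1
    intro a a' h
    simp only [Prod.mk.injEq] at h
    have hu : w a b = w a' b := h32 _ _ h.1 ((hwb a b).trans (hwb a' b).symm) h.2
    rw [← hwa a b, hu, hwa a' b]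
  · intro a b
    have h1 : (w a b).1.1 = a.1 := congrArg Prod.fst (hwa a b)
    have h2 : (w a b).1.2.1 = b.1 := congrArg Prod.fst (hwb a b)
    have h3 : 0 < X (w a b).1.1 (w a b).1.2.1 (w a b).1.2.2 :=
      Nat.pos_of_ne_zero (fun h0 => by
        have h4 := (w a b).2
        rw [h0] at h4
        exact h4.elim0)
    rw [h1, h2] at h3
    exact h3

end Pool.Agent.Helper6.FZ
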